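import Mathlib

/-!
MP_82cbb9_al, structure theorem for finitely generated soluble groups of finite Prüfer rank:
shared definitions.
-/

set_option autoImplicit false

namespace Pool.Agent.ST

open Module

/-- every finitely generated subgroup of the group `G` is generated by at most `r` elements -/
def RankG (G : Type) [Group G] (r : ℕ) : Prop :=
  ∀ H : Subgroup G, H.FG → ∃ s : Finset G, s.card ≤ r ∧ Subgroup.closure (s : Set G) = H

/-- every finitely generated subgroup of the abelian group `B` is generated by at most `r`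
elements -/
def RankLE (B : Type) [AddCommGroup B] (r : ℕ) : Prop :=
  ∀ s : Finset B, ∃ t : Finset B, t.card ≤ r ∧
    AddSubgroup.closure (t : Set B) = AddSubgroup.closure (s : Set B)

/-- the product of the operators `ρ h - 1`, `h` in the list `l` -/
def opProd {G B : Type} [Group G] [AddCommGroup B] (ρ : G →* AddMonoid.End B) (l : List G) :
    AddMonoid.End B :=
  (l.map fun h => ρ h - 1).prod

/-- `f` is an index bound in Malcev's theorem, for all fields: a soluble linear group of degree
`≤ n` has a subgroup of index `≤ f n` whose derived subgroup is unipotent -/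
def MalcevBound (f : ℕ → ℕ) : Prop :=
  ∀ (n : ℕ) (k V G : Type) [Field k] [AddCommGroup V] [Module k V] [FiniteDimensional k V]
    [Group G] [Group.IsSolvable G] (ρ : G →* Module.End k V), finrank k V ≤ n →
    ∃ H : Subgroup G, H.index ≠ 0 ∧ H.index ≤ f n ∧
      ∀ l : List G, l.length = n → (∀ h ∈ l, h ∈ ⁅H, H⁆) → (l.map fun h => ρ h - 1).prod = 0

/-- the same property for the automorphisms of an abelian group `B` of rank `≤ r` -/
def UnipBound (f : ℕ → ℕ) (B : Type) [AddCommGroup B] (r : ℕ) : Prop :=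
  ∀ (G : Type) [Group G] [Group.IsSolvable G] (ρ : G →* AddMonoid.End B),
    ∃ H : Subgroup G, H.index ≠ 0 ∧ H.index ≤ f r ∧
      ∀ l : List G, l.length = r → (∀ h ∈ l, h ∈ ⁅H, H⁆) → opProd ρ l = 0

/-- `ℚ_p / ℤ_p`, as a `ℤ_p`-module -/
abbrev QpZp (p : ℕ) [Fact p.Prime] : Type :=
  ℚ_[p] ⧸ LinearMap.range (Algebra.linearMap ℤ_[p] ℚ_[p])

/-- what is known on the action of `M` on `B` after the first step -/
structure NilData {G B : Type} [Group G] [AddCommGroup B] (ρ : G →* AddMonoid.End B)
    (M : Subgroup G) (r : ℕ) : Prop where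
  tor : ∀ l : List G, l.length = r → (∀ h ∈ l, h ∈ M) → ∀ b, IsOfFinAddOrder (opProd ρ l b)
  modp : ∀ p : ℕ, p.Prime → ∀ l : List G, l.length = r → (∀ h ∈ l, h ∈ M) →
    ∀ b, IsOfFinAddOrder b → ∃ c, IsOfFinAddOrder c ∧ opProd ρ l b = p • c
  div : ∀ p : ℕ, p.Prime → ∀ D : AddSubgroup B, (∀ g, ∀ b ∈ D, ρ g b ∈ D) →
    (∀ b ∈ D, ∃ k : ℕ, p ^ k • b = 0) → (∀ b ∈ D, ∃ c ∈ D, p • c = b) →
    ∀ l : List G, l.length = r → (∀ h ∈ l, h ∈ M) → ∀ b ∈ D, opProd ρ l b = 0

/-- `B` has a finitely generated subgroup `B₀` such that every element of `B` has a multiple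
`m ^ j • b` in `B₀` -/
def PMin (m : ℕ) (B : Type) [AddCommGroup B] : Prop :=
  ∃ s : Finset B, ∀ b : B, ∃ j : ℕ, m ^ j • b ∈ AddSubgroup.closure (s : Set B)

/-- `B` is generated by the finite set `s` as a module for `ρ` -/
def GenBy {G B : Type} [Group G] [AddCommGroup B] (ρ : G →* AddMonoid.End B) (s : Finset B) :
    Prop :=
  ∀ C : AddSubgroup B, (∀ b ∈ s, b ∈ C) → (∀ g, ∀ b ∈ C, ρ g b ∈ C) → C = ⊤

/-- the action of `G` by conjugation on the abelianization of a normal subgroup `A` -/
def conjAb {G : Type} [Group G] (A : Subgroup G) [A.Normal] :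
    G →* AddMonoid.End (Additive (Abelianization A)) where
  toFun g := MonoidHom.toAdditive (Abelianization.map (MulAut.conjNormal g).toMonoidHom)
  map_one' := by
    ext x
    obtain ⟨x, rfl⟩ := Additive.ofMul.surjective x
    obtain ⟨a, rfl⟩ := QuotientGroup.mk_surjective x
    simp only [map_one]
    rfl
  map_mul' g h := by
    ext x
    obtain ⟨x, rfl⟩ := Additive.ofMul.surjective x
    obtain ⟨a, rfl⟩ := QuotientGroup.mk_surjective x
    simp only [map_mul]
    rfl

/-- the class of `a ∈ A` in the abelianization of `A`, written additively -/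
def cls {G : Type} [Group G] {A : Subgroup G} (a : A) : Additive (Abelianization A) :=
  Additive.ofMul (Abelianization.of a)

/-- the subgroup of elements of `A` with class in `D` -/
def pull {G : Type} [Group G] (A : Subgroup G) (D : AddSubgroup (Additive (Abelianization A))) :
    Subgroup G where
  carrier := {g | ∃ h : g ∈ A, cls (⟨g, h⟩ : A) ∈ D}
  one_mem' := ⟨A.one_mem, D.zero_mem⟩
  mul_mem' := by
    rintro a b ⟨ha, ha'⟩ ⟨hb, hb'⟩
    exact ⟨A.mul_mem ha hb, D.add_mem ha' hb'⟩
  inv_mem' := by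
    rintro a ⟨ha, ha'⟩
    exact ⟨A.inv_mem ha, D.neg_mem ha'⟩

end Pool.Agent.ST
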