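import Pool.Agent.Helper63.ST.Defs
import Pool.Agent.Helper29.ST.ST12
import Pool.Agent.Helper50.ST.RK
import Pool.Agent.Helper17.ST.ST9
import Pool.Agent.Helper62.ST.ST10
import Pool.Agent.Helper72.ST.ST11ab
import Pool.Agent.Helper17.ST.ST8
import Pool.Agent.Helper20.ST.ST3a
import Pool.Agent.Helper31.ST.ST5
import Pool.Agent.Helper62.ST.ST6c
import Pool.Agent.Helper9.ST.ST11c

/-!
MP_82cbb9_al, structure theorem: assembly (ST-14).
-/

set_option autoImplicit false

namespace Pool.Agent.ST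

open Module

/-- ST-8 -/
theorem exists_nilData {G B : Type} [Group G] [Group.FG G] [Group.IsSolvable G]
    [AddCommGroup B] (ρ : G →* AddMonoid.End B) {r : ℕ} (hr : RankLE B r) :
    ∃ H : Subgroup G, H.Normal ∧ H.FiniteIndex ∧ NilData ρ ⁅H, H⁆ r :=
  exists_nilData_of exists_malcevBound (fun hf _ _ _ hr _ hp h => unip_elementary hf hr hp h)
    (fun hf _ _ _ hr _ hp h1 h2 => unip_divisible hf hr hp h1 h2) ρ hr

theorem NilData.mono {G B : Type} [Group G] [AddCommGroup B] {ρ : G →* AddMonoid.End B}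
    {M M' : Subgroup G} {r : ℕ} (h : NilData ρ M r) (hM : M' ≤ M) : NilData ρ M' r where
  tor l hl hm := h.tor l hl fun x hx => hM (hm x hx)
  modp p hp l hl hm := h.modp p hp l hl fun x hx => hM (hm x hx)
  div p hp D h1 h2 h3 l hl hm := h.div p hp D h1 h2 h3 l hl fun x hx => hM (hm x hx)

theorem RankG.subgroup {G : Type} [Group G] {r : ℕ} (hr : RankG G r) (N : Subgroup G) :
    RankG N r := by
  intro H hH
  have h1 : (H.map N.subtype).FG := by
    obtain ⟨s, hs⟩ := hH
    classical
    exact ⟨s.image N.subtype, by rw [Finset.coe_image, ← MonoidHom.map_closure, hs]⟩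
  obtain ⟨s, hs, hs'⟩ := hr _ h1
  have h2 : ∀ x ∈ s, x ∈ N := by
    intro x hx
    have : x ∈ H.map N.subtype := by rw [← hs']; exact Subgroup.subset_closure hx
    obtain ⟨y, _, rfl⟩ := this
    exact y.2
  classical
  refine ⟨s.attach.image fun x => (⟨x.1, h2 x.1 x.2⟩ : N), ?_, ?_⟩
  · exact (Finset.card_image_le).trans (by simpa using hs)
  · apply Subgroup.map_injective N.subtype_injective
    rw [MonoidHom.map_closure, ← hs']
    congr 1
    ext x
    constructor
    · rintro ⟨y, hy, rfl⟩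
      obtain ⟨z, _, rfl⟩ := Finset.mem_image.1 (Finset.mem_coe.1 hy)
      exact z.2
    · intro hx
      exact ⟨⟨x, h2 x hx⟩, Finset.mem_coe.2 (Finset.mem_image.2
        ⟨⟨x, hx⟩, Finset.mem_attach _ _, rfl⟩), rfl⟩

/-- powers of `p` -/
theorem mem_of_pow_prime {G : Type} [Group G] (S : ℕ → Subgroup G) (p : ℕ) {C : ℕ}
    (h : ∀ i < C, ∀ x ∈ S i, x ^ p ∈ S (i + 1) → x ∈ S (i + 1)) {x : G} {k : ℕ}
    (hk : x ^ p ^ k = 1) (h0 : x ∈ S 0) : x ∈ S C := by
  induction C with
  | zero => exact h0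
  | succ C ih =>
    have hC : x ∈ S C := ih fun i hi => h i (by omega)
    have key : ∀ j ≤ k, x ^ p ^ (k - j) ∈ S (C + 1) := by
      intro j
      induction j with
      | zero => intro _; rw [Nat.sub_zero, hk]; exact Subgroup.one_mem _
      | succ j ihj =>
        intro hj
        apply h C (by omega) _ (Subgroup.pow_mem _ hC _)
        rw [← pow_mul, ← pow_succ, show k - (j + 1) + 1 = k - j by omega]
        exact ihj (by omega)
    simpa using key k le_rfl

theorem eq_zero_of_pow_smul {B : Type} [AddCommGroup B] (p : ℕ)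
    (h : ∀ b : B, p • b = 0 → b = 0) (k : ℕ) (b : B) (hb : p ^ k • b = 0) : b = 0 := by
  induction k with
  | zero => simpa using hb
  | succ k ih =>
    apply ih
    apply h
    rw [← mul_smul, ← pow_succ']
    exact hb

theorem cls_eq_zero_iff {G : Type} [Group G] {A : Subgroup G} (hA : ⁅A, A⁆ = ⊥) (a : A) :
    cls a = 0 ↔ a = 1 := by
  constructor
  · intro h
    have h1 : Abelianization.of a = 1 := h
    have h2 : a ∈ commutator A := by
      rw [← Abelianization.ker_of]; exact h1
    have h3 : commutator A = ⊥ := by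
      rw [eq_bot_iff, commutator_def, Subgroup.commutator_le]
      intro x _ y _
      have := Subgroup.commutator_mem_commutator x.2 y.2
      rw [hA, Subgroup.mem_bot, commutatorElement_def] at this
      rw [Subgroup.mem_bot, commutatorElement_def, Subtype.ext_iff]
      simpa using this
    rw [h3] at h2
    simpa using h2
  · rintro rfl
    rfl

theorem pull_bot {G : Type} [Group G] {A : Subgroup G} (hA : ⁅A, A⁆ = ⊥) :
    pull A ⊥ = ⊥ := by
  rw [eq_bot_iff]
  rintro x ⟨hx, hx'⟩
  rw [AddSubgroup.mem_bot, cls_eq_zero_iff hA] at hx'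
  rw [Subgroup.mem_bot]
  exact congrArg Subtype.val hx'

theorem pull_top {G : Type} [Group G] (A : Subgroup G) : pull A ⊤ = A := by
  ext x
  exact ⟨fun h => h.1, fun h => ⟨h, trivial⟩⟩

/-- the torsion elements -/
def tors (B : Type) [AddCommGroup B] : AddSubgroup B where
  carrier := {b | IsOfFinAddOrder b}
  zero_mem' := IsOfFinAddOrder.zero
  add_mem' ha hb := IsOfFinAddOrder.add ha hb
  neg_mem' ha := ha.neg

/-- `p` times the torsion elements -/
def ptors (B : Type) [AddCommGroup B] (p : ℕ) : AddSubgroup B :=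
  (tors B).map (nsmulAddMonoidHom p)

theorem pmin_of_fg (B : Type) [AddCommGroup B] [AddGroup.FG B] : PMin 1 B := by
  obtain ⟨s, hs⟩ := (AddGroup.fg_def.1 (inferInstance : AddGroup.FG B))
  exact ⟨s, fun b => ⟨0, by rw [hs]; trivial⟩⟩

/-- for almost all `p`, the `p`-elements of `A` lie in a given term of the lower central series
of `⁅H, H⁆` -/
theorem exists_primes {G : Type} [Group G] [Group.FG G] {r : ℕ} (hr : RankG G r)
    (H : Subgroup G) [H.Normal] [H.FiniteIndex] (C : ℕ) :
    ∃ P : Finset ℕ, ∀ p : ℕ, p.Prime → p ∉ P → ∀ (x : G) (k : ℕ), x ^ p ^ k = 1 →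
      x ∈ (⁅H, H⁆ : Subgroup G).lowerCentralSeries C := by
  have hFG : Group.FG H := Subgroup.fg_of_index_ne_zero H
  obtain ⟨s, hs⟩ := exists_genBy_commutator (H := H)
  have hrH : RankG H r := hr.subgroup H
  obtain ⟨m, hm, hPM⟩ := pmin_of_genBy _ s hs (hrH.rankLE (commutator H))
  choose P hP using fun i => lcs_no_torsion hm hPM i
  have hFG' : Group.FG (Abelianization H) := QuotientGroup.fg _
  obtain ⟨P', hP'⟩ := PMin.no_torsion one_pos (pmin_of_fg (Additive (Abelianization H)))
  classical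
  refine ⟨(Finset.range C).biUnion P ∪ P' ∪ H.index.primeFactors, ?_⟩
  intro p hp hpP x k hx
  simp only [Finset.mem_union, not_or, Finset.mem_biUnion, not_exists, not_and,
    Finset.mem_range] at hpP
  obtain ⟨⟨hp1, hp2⟩, hp3⟩ := hpP
  have hcop : Nat.Coprime (p ^ k) H.index := by
    apply Nat.Coprime.pow_left
    rw [Nat.Prime.coprime_iff_not_dvd hp]
    intro h
    exact hp3 (Nat.mem_primeFactors.2 ⟨hp, h, Subgroup.FiniteIndex.index_ne_zero⟩)
  have hxH : x ∈ H := by
    have h1 : x ^ H.index ∈ H := H.pow_index_mem x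
    have h2 : x = x ^ (Nat.gcd (p ^ k) H.index : ℤ) := by rw [hcop]; simp
    rw [h2, Nat.gcd_eq_gcd_ab, zpow_add, zpow_mul, zpow_mul, zpow_natCast, hx, one_zpow, one_mul,
      zpow_natCast]
    exact H.zpow_mem h1 _
  set y : H := ⟨x, hxH⟩ with hy
  have hyk : y ^ p ^ k = 1 := by
    rw [Subtype.ext_iff]; simpa [hy] using hx
  have hyN : y ∈ commutator H := by
    rw [← Abelianization.ker_of, MonoidHom.mem_ker]
    have := eq_zero_of_pow_smul p (hP' p hp hp2) k (Additive.ofMul (Abelianization.of y)) (by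
      rw [← ofMul_pow, ← map_pow, hyk, map_one, ofMul_one])
    exact this
  set z : commutator H := ⟨y, hyN⟩ with hz
  have hzk : z ^ p ^ k = 1 := by
    rw [Subtype.ext_iff]; simpa [hz] using hyk
  have hzC : z ∈ (⊤ : Subgroup (commutator H)).lowerCentralSeries C := by
    apply mem_of_pow_prime (fun i => (⊤ : Subgroup (commutator H)).lowerCentralSeries i) p
      (k := k) _ hzk
    · simp
    · intro i hi w hw hwp
      exact hP i p hp (hp1 i hi) w hw hwp
  have h1 : ((⊤ : Subgroup (commutator H)).lowerCentralSeries C).map (commutator H).subtype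
      = (commutator H).lowerCentralSeries C := Subgroup.top_subtype_lowerCentralSeries _ _
  have h2 : y ∈ (commutator H).lowerCentralSeries C := by
    rw [← h1]; exact ⟨z, hzC, rfl⟩
  have h3 : ((commutator H).lowerCentralSeries C).map H.subtype
      = (⁅H, H⁆ : Subgroup G).lowerCentralSeries C := by
    rw [Subgroup.map_lowerCentralSeries]
    congr 1
    rw [commutator_def, Subgroup.map_commutator, ← MonoidHom.range_eq_map, Subgroup.range_subtype]
  rw [← h3]
  exact ⟨y, h2, rfl⟩

/-- inductive step: extension by an abelian group -/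
theorem step {G : Type} [Group G] [Group.FG G] [Group.IsSolvable G] {r : ℕ} (hr : RankG G r)
    (A : Subgroup G) [A.Normal] (hA : ⁅A, A⁆ = ⊥) (H₁ : Subgroup G) [H₁.FiniteIndex] (c : ℕ)
    (hc : (⁅H₁, H₁⁆ : Subgroup G).lowerCentralSeries c ≤ A) :
    ∃ H : Subgroup G, H.FiniteIndex ∧ ∃ n, (⁅H, H⁆ : Subgroup G).lowerCentralSeries n = ⊥ := by
  obtain ⟨H₂, hH₂n, hH₂f, hH₂⟩ := exists_nilData (conjAb A) (hr.rankLE A)
  set H : Subgroup G := (H₁ ⊓ H₂).normalCore with hH
  have hHn : H.Normal := Subgroup.normalCore_normal _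
  have hHf : H.FiniteIndex := inferInstance
  have hle : H ≤ H₁ ⊓ H₂ := Subgroup.normalCore_le _
  have hle1 : (⁅H, H⁆ : Subgroup G) ≤ ⁅H₁, H₁⁆ :=
    Subgroup.commutator_mono (hle.trans inf_le_left) (hle.trans inf_le_left)
  have hle2 : (⁅H, H⁆ : Subgroup G) ≤ ⁅H₂, H₂⁆ :=
    Subgroup.commutator_mono (hle.trans inf_le_right) (hle.trans inf_le_right)
  have hND : NilData (conjAb A) ⁅H, H⁆ r := hH₂.mono hle2
  have hcA : (⁅H, H⁆ : Subgroup G).lowerCentralSeries c ≤ pull A ⊤ := by
    rw [pull_top]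
    exact (Subgroup.lowerCentralSeries_mono c hle1).trans hc
  obtain ⟨P, hP⟩ := exists_primes hr H (c + r + r)
  obtain ⟨n, hn⟩ := NilData.exists_nil (hr.rankLE A) hND P (by
    intro p hp hpP b k hb
    obtain ⟨b, rfl⟩ := Additive.ofMul.surjective b
    obtain ⟨a, rfl⟩ := QuotientGroup.mk_surjective b
    have ha : a ^ p ^ k = 1 := by
      rw [← cls_eq_zero_iff hA]
      exact hb
    have hx : (a : G) ^ p ^ k = 1 := by
      have := congrArg Subtype.val ha
      simpa using this
    have h1 := hP p hp hpP (a : G) k hx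
    have h2 : (⁅H, H⁆ : Subgroup G).lowerCentralSeries (c + r) ≤ pull A (tors _) :=
      lcs_le_pull A ⁅H, H⁆ ⊤ (tors _) r (fun l hl hl' b _ => hND.tor l hl hl' b) hcA
    have h3 : (⁅H, H⁆ : Subgroup G).lowerCentralSeries (c + r + r) ≤ pull A (ptors _ p) := by
      refine lcs_le_pull A ⁅H, H⁆ (tors _) (ptors _ p) r (fun l hl hl' b hb => ?_) h2
      obtain ⟨c', hc', hc''⟩ := hND.modp p hp l hl hl' b hb
      exact ⟨c', hc', hc''.symm⟩
    obtain ⟨h4, c', hc', hc''⟩ := h3 h1
    exact ⟨c', hc', hc''.symm⟩)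
  refine ⟨H, hHf, c + n, ?_⟩
  have := lcs_le_pull A ⁅H, H⁆ ⊤ ⊥ n (fun l hl hl' b _ => by
    rw [hn l hl hl']; exact AddSubgroup.mem_bot.2 rfl) hcA
  rw [pull_bot hA] at this
  exact le_bot_iff.1 this

theorem exists_nilpotent_commutator_aux (s : ℕ) : ∀ (G : Type) [Group G] [Group.FG G]
    [Group.IsSolvable G], derivedSeries G s = ⊥ → ∀ r : ℕ, RankG G r →
    ∃ H : Subgroup G, H.FiniteIndex ∧ ∃ n, (⁅H, H⁆ : Subgroup G).lowerCentralSeries n = ⊥ := by
  induction s with
  | zero =>
    intro G _ _ _ h r _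
    refine ⟨⊤, inferInstance, 0, ?_⟩
    rw [Subgroup.lowerCentralSeries_zero, ← le_bot_iff, ← h]
    simp
  | succ s ih =>
    intro G _ _ _ h r hr
    set A : Subgroup G := derivedSeries G s with hA
    have hAn : A.Normal := inferInstance
    have hAA : ⁅A, A⁆ = ⊥ := by rw [hA, ← derivedSeries_succ]; exact h
    have h1 : derivedSeries (G ⧸ A) s = ⊥ := by
      rw [← map_derivedSeries_eq (QuotientGroup.mk'_surjective A), ← hA, eq_bot_iff]
      rintro _ ⟨x, hx, rfl⟩
      rw [Subgroup.mem_bot]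
      exact (QuotientGroup.eq_one_iff x).2 hx
    have hFG : Group.FG (G ⧸ A) := QuotientGroup.fg A
    have hS : Group.IsSolvable (G ⧸ A) := inferInstance
    obtain ⟨H₁, hH₁, c, hc⟩ := ih (G ⧸ A) h1 r (hr.quotient A)
    have hfi : (H₁.comap (QuotientGroup.mk' A)).FiniteIndex := ⟨by
      rw [Subgroup.index_comap_of_surjective _ (QuotientGroup.mk'_surjective A)]
      exact hH₁.index_ne_zero⟩
    refine step hr A hAA (H₁.comap (QuotientGroup.mk' A)) c ?_
    have h2 : ((⁅H₁.comap (QuotientGroup.mk' A), H₁.comap (QuotientGroup.mk' A)⁆ :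
        Subgroup G).lowerCentralSeries c).map (QuotientGroup.mk' A) ≤ ⊥ := by
      rw [Subgroup.map_lowerCentralSeries, ← hc]
      apply Subgroup.lowerCentralSeries_mono
      rw [Subgroup.map_commutator]
      exact Subgroup.commutator_mono (Subgroup.map_comap_le _ _) (Subgroup.map_comap_le _ _)
    rw [Subgroup.map_le_iff_le_comap] at h2
    refine h2.trans ?_
    intro x hx
    exact (QuotientGroup.eq_one_iff x).1 hx

/-- ST-14: the structure theorem, first form -/
theorem exists_nilpotent_commutator {G : Type} [Group G] [Group.FG G] [Group.IsSolvable G]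
    {r : ℕ} (hr : RankG G r) :
    ∃ H : Subgroup G, H.FiniteIndex ∧ ∃ n, (⁅H, H⁆ : Subgroup G).lowerCentralSeries n = ⊥ := by
  obtain ⟨s, hs⟩ := (Group.isSolvable_def G).1 inferInstance
  exact exists_nilpotent_commutator_aux s G hs r hr

end Pool.Agent.ST
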