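import Pool.Agent.Helper63.ST.ST14
import Pool.Agent.Helper29.CP.Defs
import Pool.Agent.Helper9.ST.ST16

/-!
MP_82cbb9_al, structure theorem: final form (ST-17). `exists_tau'` is helper44's `exists_tau`
with one more conclusion.
-/

set_option autoImplicit false

namespace Pool.Agent.ST

open Module Polynomial

theorem exists_tau' {H : Type} [Group H] [Group.FG H] :
    ∃ (G0 : Subgroup H) (_ : G0.FiniteIndex) (k : ℕ) (τ : G0 →* CP.TT k),
      Function.Surjective τ ∧ τ.ker = (commutator H).subgroupOf G0 ∧ commutator H ≤ G0 := by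
  classical
  have hfg : Group.FG (Abelianization H) :=
    Group.fg_of_surjective (f := (Abelianization.of : H →* Abelianization H))
      QuotientGroup.mk_surjective
  have hfg' : AddGroup.FG (Additive (Abelianization H)) := inferInstance
  obtain ⟨n, ι, hι, p, hp, e, ⟨E⟩⟩ :=
    AddCommGroup.equiv_free_prod_directSum_zmod (Additive (Abelianization H))
  let F := DirectSum ι fun i => ZMod (p i ^ e i)
  have hF : Finite F := by
    have : ∀ i, NeZero (p i ^ e i) := fun i => ⟨pow_ne_zero _ (hp i).ne_zero⟩
    exact Finite.of_equiv _ (DirectSum.addEquivProd (fun i => ZMod (p i ^ e i))).toEquiv.symm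
  let a : H →* Multiplicative (Additive (Abelianization H)) :=
    { toFun := fun h => Multiplicative.ofAdd (Additive.ofMul (Abelianization.of h))
      map_one' := rfl
      map_mul' := fun x y => rfl }
  let q : H →* Multiplicative ((Fin n →₀ ℤ) × F) :=
    (AddMonoidHom.toMultiplicative E.toAddMonoidHom).comp a
  have hq : Function.Surjective q := by
    intro y
    obtain ⟨x, hx⟩ := E.surjective (Multiplicative.toAdd y)
    obtain ⟨h, hh⟩ := QuotientGroup.mk_surjective (Additive.toMul x)
    refine ⟨h, ?_⟩
    have hh' : Additive.ofMul (Abelianization.of h) = x := congrArg Additive.ofMul hh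
    have : E (Additive.ofMul (Abelianization.of h)) = Multiplicative.toAdd y := by
      rw [← hx, hh']
    exact congrArg Multiplicative.ofAdd this
  have hqk : ∀ h, q h = 1 → h ∈ commutator H := by
    intro h hh
    have h1 : E (Additive.ofMul (Abelianization.of h)) = 0 := hh
    have h2 : Additive.ofMul (Abelianization.of h) = 0 := (map_eq_zero_iff E E.injective).1 h1
    have h3 : Abelianization.of h = 1 := h2
    rwa [← MonoidHom.mem_ker, Abelianization.ker_of] at h3
  have hqk' : ∀ h ∈ commutator H, q h = 1 := by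
    intro h hh
    have h3 : Abelianization.of h = 1 := by
      rwa [← MonoidHom.mem_ker, Abelianization.ker_of]
    have h1 : E (Additive.ofMul (Abelianization.of h)) = 0 := by
      rw [h3]
      exact map_zero E
    exact h1
  let q2 : H →* Multiplicative F :=
    (AddMonoidHom.toMultiplicative (AddMonoidHom.snd (Fin n →₀ ℤ) F)).comp q
  let q1 : H →* Multiplicative (Fin n → ℤ) :=
    (AddMonoidHom.toMultiplicative
      ((Finsupp.linearEquivFunOnFinite ℤ ℤ (Fin n)).toAddEquiv.toAddMonoidHom.comp
        (AddMonoidHom.fst (Fin n →₀ ℤ) F))).comp q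
  have hfin : q2.ker.FiniteIndex := by
    have : Finite (Multiplicative F) := hF
    infer_instance
  refine ⟨q2.ker, hfin, n, q1.comp q2.ker.subtype, ?_, ?_, Abelianization.commutator_subset_ker q2⟩
  · intro v
    obtain ⟨h, hh⟩ := hq (Multiplicative.ofAdd
      ((Finsupp.linearEquivFunOnFinite ℤ ℤ (Fin n)).symm (Multiplicative.toAdd v), (0 : F)))
    refine ⟨⟨h, ?_⟩, ?_⟩
    · rw [MonoidHom.mem_ker]
      change (AddMonoidHom.toMultiplicative (AddMonoidHom.snd (Fin n →₀ ℤ) F)) (q h) = 1
      rw [hh]
      rfl
    · change (AddMonoidHom.toMultiplicative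
        ((Finsupp.linearEquivFunOnFinite ℤ ℤ (Fin n)).toAddEquiv.toAddMonoidHom.comp
        (AddMonoidHom.fst (Fin n →₀ ℤ) F))) (q h) = v
      rw [hh]
      rfl
  · ext ⟨h, hh⟩
    rw [MonoidHom.mem_ker, Subgroup.mem_subgroupOf]
    constructor
    · intro h1
      apply hqk
      have e1 : (Multiplicative.toAdd (q h)).1 = 0 := by
        have h2 : (Finsupp.linearEquivFunOnFinite ℤ ℤ (Fin n))
          ((Multiplicative.toAdd (q h)).1) = 0 := h1
        exact (map_eq_zero_iff _ (LinearEquiv.injective _)).1 h2
      have e2 : (Multiplicative.toAdd (q h)).2 = 0 := hh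
      exact congrArg Multiplicative.ofAdd (Prod.ext e1 e2)
    · intro h1
      have h2 : q h = 1 := hqk' h h1
      change (AddMonoidHom.toMultiplicative
        ((Finsupp.linearEquivFunOnFinite ℤ ℤ (Fin n)).toAddEquiv.toAddMonoidHom.comp
        (AddMonoidHom.fst (Fin n →₀ ℤ) F))) (q h) = 1
      rw [h2, map_one]


theorem gam_eq_lcs {G : Type} [Group G] (L : Subgroup G) (j : ℕ) :
    CP.gam L j = L.lowerCentralSeries j := by
  induction j with
  | zero => rfl
  | succ j ih => rw [CP.gam, ih]; rfl

/-- `N` acts trivially on the abelianization of `N` -/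
theorem conjAb_of_mem {H : Type} [Group H] (N : Subgroup H) [N.Normal] {n : H} (hn : n ∈ N) :
    conjAb N n = 1 := by
  ext x
  obtain ⟨x, rfl⟩ := Additive.ofMul.surjective x
  obtain ⟨a, rfl⟩ := QuotientGroup.mk_surjective x
  have h1 : MulAut.conjNormal n a = ⟨n, hn⟩ * a * (⟨n, hn⟩ : N)⁻¹ := by
    ext; simp
  have h2 : Abelianization.of (MulAut.conjNormal n a) = Abelianization.of a := by
    rw [h1, map_mul, map_mul, map_inv, mul_right_comm, mul_inv_cancel, one_mul]
  exact congrArg Additive.ofMul h2

/-- the action of `H/[H,H]` on the abelianization of `[H,H]` -/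
def actQ (H : Type) [Group H] :
    Abelianization H →* AddMonoid.End (Additive (Abelianization (commutator H))) :=
  QuotientGroup.lift (commutator H) (conjAb (commutator H)) fun _ hn => conjAb_of_mem _ hn

theorem actQ_of {H : Type} [Group H] (h : H) :
    actQ H (Abelianization.of h) = conjAb (commutator H) h := rfl

/-- `cls` as a homomorphism -/
def clsHom {G : Type} [Group G] (A : Subgroup G) :
    A →* Multiplicative (Additive (Abelianization A)) where
  toFun a := Multiplicative.ofAdd (cls a)
  map_one' := rfl
  map_mul' _ _ := rfl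

theorem map_pw {G H : Type} [Group G] [Group H] (φ : G →* H) (f y : G) (p : ℤ[X]) :
    φ (CP.pw f y p) = CP.pw (φ f) (φ y) p := by
  rw [CP.pw, CP.pw, map_list_prod, List.map_map]
  congr 1
  apply List.map_congr_left
  intro n _
  simp

theorem sum_range_list {B : Type} [AddCommGroup B] (f : ℕ → B) (n : ℕ) :
    ((List.range n).map f).sum = ∑ i ∈ Finset.range n, f i := by
  induction n with
  | zero => simp
  | succ n ih => rw [List.range_succ, Finset.sum_range_succ, List.map_append, List.sum_append, ih]; simp

/-- `pw t l g` for `l ∈ K` -/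
theorem pw_mem {H : Type} [Group H] (K : Subgroup H) [K.Normal] (t : H) (l : K) (g : ℤ[X])
    (hg : aeval (conjAb K t) g = 0) : CP.pw t (l : H) g ∈ ⁅K, K⁆ := by
  set w : ℕ → K := fun n => (MulAut.conjNormal (t ^ n) l) ^ (g.coeff n) with hw
  have h1 : CP.pw t (l : H) g = (((List.range (g.natDegree + 1)).map w).prod : K) := by
    rw [CP.pw, ← K.coe_subtype, map_list_prod, List.map_map]
    congr 1
  have h2 : clsHom K (((List.range (g.natDegree + 1)).map w).prod) = 1 := by
    rw [map_list_prod, List.map_map]
    have h3 : ((List.range (g.natDegree + 1)).map (clsHom K ∘ w)).prod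
        = Multiplicative.ofAdd ((List.range (g.natDegree + 1)).map
          (fun n => g.coeff n • ((conjAb K t) ^ n) (cls l))).sum := by
      rw [ofAdd_list_prod, List.map_map]
      congr 1
      apply List.map_congr_left
      intro n _
      have h4 : ((conjAb K t) ^ n) (cls l) = cls (MulAut.conjNormal (t ^ n) l) := by
        rw [← map_pow]; rfl
      simp only [Function.comp_apply]
      rw [h4, hw]
      simp only [map_zpow]
      rfl
    rw [h3, sum_range_list]
    have h5 : aeval (conjAb K t) g (cls l) = 0 := by rw [hg]; rfl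
    rw [aeval_eq_sum_range] at h5
    have h6 : ∑ i ∈ Finset.range (g.natDegree + 1), g.coeff i • ((conjAb K t) ^ i) (cls l) = 0 := by
      rw [← h5]
      exact (map_sum (AddMonoidHom.eval (cls l))
        (fun i => (g.coeff i • (conjAb K) t ^ i : AddMonoid.End (Additive (Abelianization K))))
        (Finset.range (g.natDegree + 1))).symm
    rw [h6]; rfl
  have h7 : (((List.range (g.natDegree + 1)).map w).prod : K) ∈ commutator K := by
    rw [← Abelianization.ker_of, MonoidHom.mem_ker]
    exact h2
  have h8 : (commutator K).map K.subtype = ⁅K, K⁆ := by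
    rw [commutator_def, Subgroup.map_commutator, ← MonoidHom.range_eq_map, Subgroup.range_subtype]
  rw [h1, ← h8]
  exact ⟨_, h7, rfl⟩

/-- final form -/
theorem structure_theorem' {G : Type} [Group G] [Group.FG G] [Group.IsSolvable G] {r : ℕ}
    (hr : CP.PruferLE G r) : ∃ (G0 : Subgroup G) (_ : G0.FiniteIndex) (k c : ℕ)
      (tau : G0 →* CP.TT k) (g : Fin k → Polynomial ℤ), Function.Surjective tau ∧
      CP.gam tau.ker c = ⊥ ∧ (∀ a, (g a).IsPrimitive) ∧
      ∀ a t, tau t = CP.tt a → ∀ l ∈ tau.ker, CP.pw t l (g a) ∈ ⁅tau.ker, tau.ker⁆ := by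
  have hr' : RankG G r := hr
  obtain ⟨H, hH, c, hc⟩ := exists_nilpotent_commutator hr'
  have hFG : Group.FG H := Subgroup.fg_of_index_ne_zero H
  obtain ⟨G1, hG1, k, τ, hτ, hker, hle⟩ := exists_tau' (H := H)
  obtain ⟨s, hs⟩ := exists_genBy_commutator (H := H)
  have hrB := (hr'.subgroup H).rankLE (commutator H)
  have hFGQ : Group.FG (Abelianization H) := QuotientGroup.fg _
  have hsQ : GenBy (actQ H) s := by
    intro C h1 h2
    exact hs C h1 fun g b hb => by rw [← actQ_of]; exact h2 _ b hb
  choose g hg hg' using fun t : Abelianization H => exists_primitive (actQ H) s hsQ hrB t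
  -- transport to `G0 = G1.map H.subtype`
  let e : G1 ≃* (G1.map H.subtype : Subgroup G) := G1.equivMapOfInjective _ H.subtype_injective
  choose t ht using fun a : Fin k => hτ (CP.tt a)
  let ι : (G1.map H.subtype : Subgroup G) →* H := G1.subtype.comp e.symm.toMonoidHom
  have hι : Function.Injective ι := G1.subtype_injective.comp e.symm.injective
  have hkerι : (τ.comp e.symm.toMonoidHom).ker.map ι = commutator H := by
    ext x
    constructor
    · rintro ⟨y, hy, rfl⟩
      have h1 : e.symm y ∈ τ.ker := hy
      rw [hker, Subgroup.mem_subgroupOf] at h1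
      exact h1
    · intro hx
      refine ⟨e ⟨x, hle hx⟩, ?_, ?_⟩
      · change τ (e.symm (e ⟨x, hle hx⟩)) = 1
        rw [e.symm_apply_apply, ← MonoidHom.mem_ker, hker, Subgroup.mem_subgroupOf]
        exact hx
      · change ((e.symm (e ⟨x, hle hx⟩) : G1) : H) = x
        rw [e.symm_apply_apply]
  refine ⟨G1.map H.subtype, ?_, k, c, τ.comp e.symm.toMonoidHom,
    fun a => g (Abelianization.of ((t a : G1) : H)), hτ.comp e.symm.surjective, ?_, ?_, ?_⟩
  · refine ⟨?_⟩
    rw [Subgroup.index_map_subtype]
    exact mul_ne_zero hG1.index_ne_zero hH.index_ne_zero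
  · rw [gam_eq_lcs]
    apply Subgroup.map_injective (hι)
    rw [Subgroup.map_lowerCentralSeries, hkerι, Subgroup.map_bot]
    apply Subgroup.map_injective H.subtype_injective
    rw [Subgroup.map_lowerCentralSeries, Subgroup.map_bot, ← hc]
    congr 1
    rw [commutator_def, Subgroup.map_commutator, ← MonoidHom.range_eq_map, Subgroup.range_subtype]
  · intro a; exact hg _
  · intro a u hu l hl
    have h1 : ι (CP.pw u l (g (Abelianization.of ((t a : G1) : H)))) ∈
        ⁅commutator H, commutator H⁆ := by
      rw [map_pw]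
      have hl' : ι l ∈ commutator H := by
        rw [← hkerι]; exact ⟨l, hl, rfl⟩
      refine pw_mem (commutator H) (ι u) ⟨ι l, hl'⟩ _ ?_
      have h2 : Abelianization.of (ι u) = Abelianization.of ((t a : G1) : H) := by
        have h3 : (t a)⁻¹ * e.symm u ∈ τ.ker := by
          rw [MonoidHom.mem_ker, map_mul, map_inv, ht]
          have : τ (e.symm u) = CP.tt a := hu
          rw [this, inv_mul_cancel]
        rw [hker, Subgroup.mem_subgroupOf] at h3
        have h4 : Abelianization.of (((t a : G1) : H)⁻¹ * (ι u)) = 1 := by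
          rw [← MonoidHom.mem_ker, Abelianization.ker_of]
          exact h3
        rw [map_mul, map_inv, inv_mul_eq_one] at h4
        exact h4.symm
      rw [← actQ_of, h2]
      exact hg' _
    rw [← hkerι, ← Subgroup.map_commutator] at h1
    obtain ⟨z, hz, hz'⟩ := h1
    rwa [hι hz'] at hz

end Pool.Agent.ST

namespace Pool.Agent.CP

open Polynomial

/-- CP-S: the structure theorem for finitely generated soluble groups of finite Prüfer rank -/
theorem structure_theorem {G : Type} [Group G] [Group.FG G] [Group.IsSolvable G] {r : ℕ}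
    (hr : PruferLE G r) : ∃ (G0 : Subgroup G) (_ : G0.FiniteIndex) (k c : ℕ) (tau : G0 →* TT k)
      (g : Fin k → ℤ[X]), Function.Surjective tau ∧ gam tau.ker c = ⊥ ∧
      (∀ a, (g a).IsPrimitive) ∧
      ∀ a t, tau t = tt a → ∀ l ∈ tau.ker, pw t l (g a) ∈ ⁅tau.ker, tau.ker⁆ :=
  ST.structure_theorem' hr

end Pool.Agent.CP

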